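import Pool.Agent.Lib.helper11.ETRRank

namespace Pool.Agent.Results.MP_3930bf_lc.Gap

open Pool.Agent.Cx

/-- the minimum rank -/
noncomputable def mr (M : List (List Ent)) : ℕ := sInf (Set.range (rankAt M))

theorem result (ε : ℝ) (hε : ε < 1 / 2) (L : Language) (hL : Reduces L ETR) :
    ∃ f, PolyTime f ∧ ∀ s, ∃ I : List (List Ent) × ℕ, f s = enc I ∧ Square I.1 ∧ 1 ≤ I.2 ∧
      (s ∈ L → mr I.1 ≤ I.2) ∧ (s ∉ L → (1 + ε) * I.2 < mr I.1) := by
  obtain ⟨g, hg, h⟩ := rh_fma.pull hL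
  refine ⟨fun s => enc (rmat 2 (g s), 2),
    polyTime_of_PT (((rmat_pt 2).comp hg).pair (by fun_prop)), fun s =>
    ⟨_, rfl, rmat_sq _ _, by simp, fun hs => ?_, fun hs => ?_⟩⟩
  · obtain ⟨x, hx⟩ := (rmat_iff le_rfl _).1 ((h s).1 hs)
    exact (Nat.sInf_le (Set.mem_range_self x)).trans hx
  · obtain ⟨x, hx⟩ : mr (rmat 2 (g s)) ∈ Set.range (rankAt (rmat 2 (g s))) :=
      Nat.sInf_mem (Set.range_nonempty _)
    have : 3 ≤ mr (rmat 2 (g s)) := by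
      by_contra hh
      exact hs ((h s).2 ((rmat_iff le_rfl _).2 ⟨x, by omega⟩))
    have : (3 : ℝ) ≤ mr (rmat 2 (g s)) := by exact_mod_cast this
    simp only [Nat.cast_ofNat]
    linarith

end Pool.Agent.Results.MP_3930bf_lc.Gap
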